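import Pool.Agent.Lib.MP_edb5be_nt.ND.Iface2
import Pool.Agent.Lib.MP_edb5be_nt.ND.Iface3
import Pool.Agent.Lib.MP_edb5be_nt.ND.H38.Sigma

/-!
Project ND: the final theorem, deduced from `ZDenStatement`, `SigmaStatement`, `ZcycStatement`,
`ZPopStatement`.
-/

set_option autoImplicit false

namespace Pool.Agent.Lib.MP_edb5be_nt.ND.H26

open Finset Pool.Agent.Lib.MP_0a5adf_nt.TP Filter Topology

/-- The grand orbit of `x`. -/
def go (x : ℤ) : Set ℤ := {n : ℤ | ∃ j k : ℕ, TZ^[j] n = TZ^[k] x}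

/-- The integers whose trajectory contains `x`. -/
def prd (x : ℤ) : Set ℤ := {n : ℤ | ∃ k : ℕ, TZ^[k] n = x}

theorem mem_go_self (x : ℤ) : x ∈ go x := ⟨0, 0, rfl⟩

theorem go_inv (x : ℤ) : InvZ (go x) := by
  intro n
  constructor
  · rintro ⟨j, k, h⟩
    refine ⟨j, k + 1, ?_⟩
    rw [← Function.iterate_succ_apply, Function.iterate_succ_apply', h,
      Function.iterate_succ_apply']
  · rintro ⟨j, k, h⟩
    refine ⟨j + 1, k, ?_⟩
    rw [Function.iterate_succ_apply, h]

theorem go_symm {x n : ℤ} (h : n ∈ go x) : x ∈ go n := by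
  obtain ⟨j, k, h⟩ := h
  exact ⟨k, j, h.symm⟩

theorem go_trans {x n m : ℤ} (h : n ∈ go x) (h' : m ∈ go n) : m ∈ go x := by
  obtain ⟨j, k, h⟩ := h
  obtain ⟨j', k', h'⟩ := h'
  refine ⟨j + j', k' + k, ?_⟩
  rw [Function.iterate_add_apply, h', ← Function.iterate_add_apply, add_comm j k',
    Function.iterate_add_apply, h, ← Function.iterate_add_apply]

theorem go_eq {x n : ℤ} (h : n ∈ go x) : go n = go x := by
  ext m
  exact ⟨fun h' => go_trans h h', fun h' => go_trans (go_symm h) h'⟩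

theorem go_disj {O O' : Set ℤ} (h : O ∈ Set.range go) (h' : O' ∈ Set.range go) (hne : O ≠ O') :
    Disjoint O O' := by
  obtain ⟨x, rfl⟩ := h
  obtain ⟨x', rfl⟩ := h'
  rw [Set.disjoint_left]
  intro m hm hm'
  exact hne (by rw [← go_eq hm, ← go_eq hm'])

theorem inv_univ : InvZ Set.univ := fun _ => by simp

/-- Predecessor sets are invariant above `|x|`. -/
theorem prd_inv (x n : ℤ) (h : n ≠ x) : n ∈ prd x ↔ TZ n ∈ prd x := by
  constructor
  · rintro ⟨k, hk⟩
    cases k with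
    | zero => exact absurd hk h
    | succ k => exact ⟨k, by rw [← hk, Function.iterate_succ_apply]⟩
  · rintro ⟨k, hk⟩
    exact ⟨k + 1, by rw [Function.iterate_succ_apply, hk]⟩

theorem dens_unique {d : Bool} {S : Set ℤ} {D D' : ℝ} (h : HasDens d S D) (h' : HasDens d S D') :
    D = D' := tendsto_nhds_unique h h'

theorem cnt_univ {d : Bool} {X : ℝ} (hX : 0 ≤ X) : cnt d Set.univ X = ⌊X⌋₊ := by
  rw [H38.cnt_eq]
  have : {N : ℕ | N ∈ {n : ℕ | sg d * (n : ℤ) ∈ (Set.univ : Set ℤ)} ∧ 1 ≤ N ∧ (N : ℝ) ≤ X} =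
      ((Icc 1 ⌊X⌋₊ : Finset ℕ) : Set ℕ) := by
    ext N
    simp only [Set.mem_univ, Set.setOf_true, true_and, Set.mem_setOf_eq, Finset.coe_Icc,
      Set.mem_Icc]
    rw [Nat.le_floor_iff hX]
  rw [this, Set.ncard_coe_finset]
  simp

theorem dens_univ (d : Bool) : HasDens d Set.univ 1 := by
  have h := tendsto_nat_floor_div_atTop (R := ℝ)
  refine Tendsto.congr' ?_ h
  filter_upwards [eventually_ge_atTop (0 : ℝ)] with X hX
  rw [cnt_univ hX]

/-- The theorem, first part. -/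
def Part1Statement : Prop :=
  ∃ c C : ℝ, 0 < c ∧ 0 < C ∧ ∀ d : Bool,
    (∀ (y : ℝ) (S : Set ℤ), 1 ≤ y → (∀ x : ℤ, y ≤ |(x : ℝ)| → (x ∈ S ↔ TZ x ∈ S)) →
      ∃ D : ℝ, 0 ≤ D ∧ D ≤ 1 ∧ HasDens d S D ∧ ∀ X : ℝ, 2 ≤ X →
        |cnt d S X - D * X| ≤ C * (X * Real.log X ^ (-(1 / 38) : ℝ) + y ^ 2)) ∧
    (∃ δ : Set ℤ → ℝ, (∀ x, HasDens d (go x) (δ (go x))) ∧
      HasSum (fun O : Set.range go => δ O) 1 ∧
      ∀ A : ℕ, ∃ K : ℝ, ∀ X : ℝ, 2 ≤ X → cnt d {x : ℤ | δ (go x) = 0} X ≤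
        K * (X / Real.log X ^ A)) ∧
    (∀ X y : ℝ, 1 ≤ X → 1 ≤ y →
      cnt d {x : ℤ | ∀ k : ℕ, y ≤ |((TZ^[k] x : ℤ) : ℝ)|} X ≤ C * X / y ^ c)

theorem part1 (hz : ZDenStatement) (h0 : ZeroZStatement) (hs : SigmaStatement)
    (hc : ZcycStatement) : Part1Statement := by
  classical
  obtain ⟨C0, hC0, hz⟩ := hz
  obtain ⟨c, C1, hc0, hC1, hcyc⟩ := hc
  -- `log X ^ (-1/38) * X` is at least a constant for `X ≥ 2`
  have hlow : ∀ X : ℝ, 2 ≤ X → 1 ≤ X * Real.log X ^ (-(1 / 38) : ℝ) := by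
    intro X hX
    have hl : 0 < Real.log X := Real.log_pos (by linarith)
    have hlX : Real.log X ≤ X := by
      have := Real.log_le_sub_one_of_pos (show (0 : ℝ) < X by linarith)
      linarith
    have h1 : X ^ (-(1 / 38) : ℝ) ≤ Real.log X ^ (-(1 / 38) : ℝ) :=
      Real.rpow_le_rpow_of_nonpos hl hlX (by norm_num)
    have h2 : X * X ^ (-(1 / 38) : ℝ) = X ^ ((37 : ℝ) / 38) := by
      have := Real.rpow_add (show (0 : ℝ) < X by linarith) 1 (-(1 / 38))
      rw [Real.rpow_one] at this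
      rw [← this]
      norm_num
    have h3 : (1 : ℝ) ≤ X ^ ((37 : ℝ) / 38) := Real.one_le_rpow (by linarith) (by norm_num)
    calc (1 : ℝ) ≤ X * X ^ (-(1 / 38) : ℝ) := by rw [h2]; exact h3
      _ ≤ _ := by
        apply mul_le_mul_of_nonneg_left h1 (by linarith)
  refine ⟨c, 2 * C0 + C1, hc0, by positivity, fun d => ⟨?_, ?_, ?_⟩⟩
  · intro y S hy hS
    obtain ⟨D, h0, h1, hD, hX⟩ := hz d y S hy hS
    refine ⟨D, h0, h1, hD, fun X hX2 => (hX X hX2).trans ?_⟩
    apply mul_le_mul_of_nonneg_right (by linarith)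
    have := hlow X hX2
    positivity
  · -- densities of the grand orbits
    have hgo : ∀ x, ∃ D : ℝ, HasDens d (go x) D := by
      intro x
      obtain ⟨D, -, -, hD, -⟩ := hz d 1 (go x) le_rfl (fun n _ => go_inv x n)
      exact ⟨D, hD⟩
    let δ : Set ℤ → ℝ := fun O => if h : ∃ D : ℝ, HasDens d O D then h.choose else 0
    have hδ : ∀ x, HasDens d (go x) (δ (go x)) := by
      intro x
      have h := hgo x
      have : δ (go x) = h.choose := dif_pos h
      rw [this]
      exact h.choose_spec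
    have hsum : ∀ P : Set ℤ → Prop, ∃ D : ℝ,
        HasSum (fun O : {O : Set ℤ // O ∈ Set.range go ∧ P O} => δ O) D ∧
        HasDens d (⋃ O : {O : Set ℤ // O ∈ Set.range go ∧ P O}, (O : Set ℤ)) D := by
      intro P
      apply hs d _ (fun O : {O : Set ℤ // O ∈ Set.range go ∧ P O} => (O : Set ℤ))
        (fun O => δ O)
      · rintro ⟨O, ⟨x, rfl⟩, hP⟩
        exact go_inv x
      · rintro ⟨O, hO, hP⟩ ⟨O', hO', hP'⟩ hne
        refine go_disj hO hO' ?_
        rintro rfl
        exact hne rfl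
      · rintro ⟨O, ⟨x, rfl⟩, hP⟩
        exact hδ x
    refine ⟨δ, hδ, ?_, ?_⟩
    · obtain ⟨D, h1, h2⟩ := hs d (Set.range go) (fun O => (O : Set ℤ)) (fun O => δ O)
        (by rintro ⟨O, ⟨x, rfl⟩⟩; exact go_inv x)
        (by
          rintro ⟨O, hO⟩ ⟨O', hO'⟩ hne
          refine go_disj hO hO' ?_
          rintro rfl
          exact hne rfl)
        (by rintro ⟨O, ⟨x, rfl⟩⟩; exact hδ x)
      have hU : (⋃ O : Set.range go, (O : Set ℤ)) = Set.univ := by
        rw [Set.eq_univ_iff_forall]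
        intro x
        rw [Set.mem_iUnion]
        exact ⟨⟨go x, x, rfl⟩, mem_go_self x⟩
      rw [hU] at h2
      rw [dens_unique (dens_univ d) h2]
      exact h1
    · intro A
      obtain ⟨D, h1, h2⟩ := hsum (fun O => δ O = 0)
      have hD : D = 0 := by
        have : (fun O : {O : Set ℤ // O ∈ Set.range go ∧ δ O = 0} => δ O) = fun _ => 0 := by
          funext O
          exact O.2.2
        rw [this] at h1
        exact h1.unique hasSum_zero
      have hU : (⋃ O : {O : Set ℤ // O ∈ Set.range go ∧ δ O = 0}, (O : Set ℤ)) =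
          {x : ℤ | δ (go x) = 0} := by
        ext x
        rw [Set.mem_iUnion]
        constructor
        · rintro ⟨⟨O, ⟨x', rfl⟩, hO⟩, hx⟩
          have hx' : x ∈ go x' := hx
          show δ (go x) = 0
          rw [go_eq hx']
          exact hO
        · intro hx
          exact ⟨⟨go x, ⟨x, rfl⟩, hx⟩, mem_go_self x⟩
      rw [hU, hD] at h2
      have hinv : ∀ x : ℤ, x ∈ {x : ℤ | δ (go x) = 0} ↔ TZ x ∈ {x : ℤ | δ (go x) = 0} := by
        intro x
        have : TZ x ∈ go x := (go_inv x x).1 (mem_go_self x)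
        show δ (go x) = 0 ↔ δ (go (TZ x)) = 0
        rw [go_eq this]
      obtain ⟨C', hC', hX'⟩ := h0 A
      refine ⟨C' * (1 + A.factorial), fun X hX => ?_⟩
      have h3 := hX' d 1 _ 0 le_rfl (fun x _ => hinv x) h2 X hX
      have hl : 0 < Real.log X := Real.log_pos (by linarith)
      have hX0 : 0 < X := by linarith
      have h4 : Real.log X ^ A ≤ (A.factorial : ℝ) * X := by
        have h5 := Real.pow_div_factorial_le_exp (Real.log X) hl.le A
        rw [Real.exp_log hX0, div_le_iff₀ (by positivity)] at h5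
        linarith
      have h6 : 1 ≤ (A.factorial : ℝ) * (X / Real.log X ^ A) := by
        rw [← mul_div_assoc, le_div_iff₀ (by positivity)]
        linarith
      calc cnt d {x : ℤ | δ (go x) = 0} X
          ≤ 4 * 0 * X + C' * (X / Real.log X ^ A + 1 ^ 2) := h3
        _ = C' * (X / Real.log X ^ A + 1) := by ring
        _ ≤ C' * (X / Real.log X ^ A + A.factorial * (X / Real.log X ^ A)) := by
          apply mul_le_mul_of_nonneg_left _ hC'.le
          linarith
        _ = C' * (1 + A.factorial) * (X / Real.log X ^ A) := by ring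
  · intro X y hX hy
    have h := hcyc X y hX hy
    have h1 : cnt d {x : ℤ | ∀ k : ℕ, y ≤ |((TZ^[k] x : ℤ) : ℝ)|} X ≤
        ({x : ℤ | |(x : ℝ)| ≤ X ∧ ∀ k, y ≤ |((TZ^[k] x : ℤ) : ℝ)|}.ncard : ℝ) := by
      unfold cnt
      have hfin : {x : ℤ | |(x : ℝ)| ≤ X ∧ ∀ k, y ≤ |((TZ^[k] x : ℤ) : ℝ)|}.Finite := by
        apply (Set.finite_Icc (-⌈X⌉) ⌈X⌉).subset
        rintro x ⟨hx, _⟩
        rw [abs_le] at hx
        have h2 := Int.le_ceil X
        rw [Set.mem_Icc]
        constructor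
        · have : (-⌈X⌉ : ℝ) ≤ (x : ℝ) := by linarith
          exact_mod_cast this
        · have : (x : ℝ) ≤ ⌈X⌉ := by linarith
          exact_mod_cast this
      have hsub : {x : ℤ | x ∈ {x : ℤ | ∀ k : ℕ, y ≤ |((TZ^[k] x : ℤ) : ℝ)|} ∧ 0 < sg d * x ∧
          ((sg d * x : ℤ) : ℝ) ≤ X} ⊆
          {x : ℤ | |(x : ℝ)| ≤ X ∧ ∀ k, y ≤ |((TZ^[k] x : ℤ) : ℝ)|} := by
        rintro x ⟨h1, h2, h3⟩
        refine ⟨?_, h1⟩
        have : |(x : ℝ)| = ((sg d * x : ℤ) : ℝ) := by
          cases d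
          · simp only [sg] at h2 ⊢
            simp only [Bool.false_eq_true, if_false] at h2 ⊢
            push_cast
            rw [abs_of_neg]
            · ring
            · exact_mod_cast (show x < 0 by omega)
          · simp only [sg] at h2 ⊢
            simp only [if_true] at h2 ⊢
            push_cast
            rw [abs_of_pos]
            · ring
            · exact_mod_cast (show 0 < x by omega)
        rw [this]
        exact h3
      exact_mod_cast Set.ncard_le_ncard hsub hfin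
    refine h1.trans (h.trans ?_)
    have hy' : 0 < y ^ c := by positivity
    apply div_le_div_of_nonneg_right _ hy'.le
    nlinarith

end Pool.Agent.Lib.MP_edb5be_nt.ND.H26
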