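import Pool.Agent.Lib.MP_edb5be_nt.ND.H26.TG

/-!
ND: module TF (approximate harmonicity of the smoothed masses).
-/

set_option autoImplicit false

namespace Pool.Agent.Lib.MP_edb5be_nt.ND.H26

open Finset Pool.Agent.Lib.MP_0a5adf_nt.TP

theorem th_lt_two : th < 2 := by
  unfold th
  rw [Real.logb_lt_iff_lt_rpow (by norm_num) (by norm_num)]
  norm_num

theorem th_lt : th < 8 / 5 := by
  unfold th
  rw [Real.logb_lt_iff_lt_rpow (by norm_num) (by norm_num)]
  have h : ((2 : ℝ) ^ (8 / 5 : ℝ)) ^ (5 : ℕ) = 2 ^ (8 : ℕ) := by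
    rw [← Real.rpow_natCast, ← Real.rpow_mul (by norm_num)]
    norm_num
  by_contra hcon
  push Not at hcon
  have h1 : ((2 : ℝ) ^ (8 / 5 : ℝ)) ^ (5 : ℕ) ≤ 3 ^ (5 : ℕ) :=
    pow_le_pow_left₀ (by positivity) hcon 5
  rw [h] at h1
  norm_num at h1

/-- a pointwise bound passes to `PJ` -/
theorem abs_PJ_le {J : ℕ} {F : ℝ → ℝ} {u e : ℝ}
    (h : ∀ v ∈ range (J + 1), |F (u - J + th * v)| ≤ e) : |PJ J F u| ≤ e := by
  unfold PJ
  refine (Finset.abs_sum_le_sum_abs _ _).trans ?_
  calc ∑ v ∈ range (J + 1), |bw J v * F (u - J + th * v)|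
      ≤ ∑ v ∈ range (J + 1), bw J v * e := by
        refine Finset.sum_le_sum fun v hv => ?_
        rw [abs_mul, abs_of_nonneg (bw_nonneg J v)]
        exact mul_le_mul_of_nonneg_left (h v hv) (bw_nonneg J v)
    _ = e := by rw [← Finset.sum_mul, sum_bw, one_mul]

/-- `u * (3/5)^(u/250)` is bounded -/
theorem exists_pow_bound : ∃ C : ℝ, 0 < C ∧ ∀ (u : ℝ) (m : ℕ), 1 ≤ u → u ≤ 250 * m →
    (3 / 5 : ℝ) ^ m ≤ C / u := by
  have h : Filter.Tendsto (fun m : ℕ => (m : ℝ) * (3 / 5 : ℝ) ^ m) Filter.atTop (nhds 0) :=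
    tendsto_self_mul_const_pow_of_lt_one (by norm_num) (by norm_num)
  obtain ⟨K, hK⟩ := h.bddAbove_range
  refine ⟨250 * (|K| + 1), by positivity, ?_⟩
  intro u m hu hum
  have h1 : (m : ℝ) * (3 / 5 : ℝ) ^ m ≤ |K| + 1 := by
    have := hK ⟨m, rfl⟩
    simp only at this
    linarith [le_abs_self K]
  rw [le_div_iff₀ (by linarith)]
  have hp : (0 : ℝ) < (3 / 5 : ℝ) ^ m := by positivity
  nlinarith

theorem tf (h1 : S1Statement) (hsemi : SemiStatement) (hR : RBoundStatement) : TFStatement := by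
  obtain ⟨C, z₀, hC, h1⟩ := h1
  obtain ⟨hR1, hR2⟩ := hR
  obtain ⟨K, hK, hKb⟩ := exists_pow_bound
  refine ⟨C + 2 * C + 6 * K, max (2 * |z₀|) 4000, by positivity, ?_⟩
  intro d B lo g L u J hu hlo hinv hL0 hL hg hJ
  have hu0 : 2 * |z₀| ≤ u := le_trans (le_max_left _ _) hu
  have hu4 : 4000 ≤ u := le_trans (le_max_right _ _) hu
  have hz0 : z₀ ≤ |z₀| := le_abs_self z₀
  have hz0' : 0 ≤ |z₀| := abs_nonneg z₀
  have hupos : 0 < u := by linarith
  have th0 := th_pos
  have th2 := th_lt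
  set m : ℕ := ⌈u / 250⌉₊ with hm
  have hm1 : u / 250 ≤ m := Nat.le_ceil _
  have hm2 : (m : ℝ) < u / 250 + 1 := Nat.ceil_lt_add_one (by positivity)
  set i' : ℕ := 4 * m with hi'
  have hi'r : (i' : ℝ) = 4 * m := by rw [hi']; push_cast; ring
  set i : ℕ := i' + J with hi
  have hir : (i : ℝ) = 4 * m + J := by rw [hi]; push_cast; rw [hi'r]
  -- the formula at `(u, i)`
  have e1 := h1 d B lo g L u i m (by linarith) (by linarith) hinv hL0
    (hL.trans (by nlinarith [mul_pos hupos hupos])) hg (by rw [hir]; linarith) (by omega)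
    (by linarith)
  -- the formula at `(z_v, i')`
  have e2 : ∀ v ∈ range (J + 1), |Fm B g (u - J + th * v) -
      (fun z => ∑ c ∈ range (i' + 1), PJ (i' - c) (Rm d B g m c) (z - c + th * m))
        (u - J + th * v)| ≤ 2 * C / u := by
    intro v hv
    rw [mem_range, Nat.lt_succ_iff] at hv
    have hv' : (v : ℝ) ≤ J := by exact_mod_cast hv
    have hv0 : (0 : ℝ) ≤ v := Nat.cast_nonneg v
    have hJ0 : (0 : ℝ) ≤ J := Nat.cast_nonneg J
    have hthv0 : 0 ≤ th * v := by positivity
    have hthv : th * v ≤ 8 / 5 * J := by nlinarith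
    set z : ℝ := u - J + th * v with hz
    have hz1 : 19 / 20 * u ≤ z := by linarith
    have hz2 : z ≤ 103 / 100 * u := by linarith
    have hzpos : 0 < z := by linarith
    have hL' : L ≤ z ^ 3 := by
      have a1 : u ^ 2 ≤ z ^ 3 := by
        have a2 : (19 / 20 * u) ^ 3 ≤ z ^ 3 := pow_le_pow_left₀ (by positivity) hz1 3
        have a3 : u ^ 2 ≤ (19 / 20 * u) ^ 3 := by nlinarith [sq_nonneg u]
        linarith
      linarith
    have e := h1 d B lo g L z i' m (by linarith) (by linarith) hinv hL0 hL' hg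
      (by rw [hi'r]; linarith) le_rfl (by linarith)
    refine e.trans ?_
    rw [div_le_div_iff₀ hzpos hupos]
    nlinarith
  have e3 := abs_PJ_sub_le (F := Fm B g) (G := fun z => ∑ c ∈ range (i' + 1),
    PJ (i' - c) (Rm d B g m c) (z - c + th * m)) e2
  -- the main terms
  have e4 : PJ J (fun z => ∑ c ∈ range (i' + 1), PJ (i' - c) (Rm d B g m c) (z - c + th * m)) u =
      ∑ c ∈ range (i' + 1), PJ (i - c) (Rm d B g m c) (u - c + th * m) := by
    have a1 : PJ J (fun z => ∑ c ∈ range (i' + 1),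
        PJ (i' - c) (Rm d B g m c) (z - c + th * m)) u =
        ∑ c ∈ range (i' + 1), PJ J (PJ (i' - c) (Rm d B g m c)) (u - c + th * m) := by
      unfold PJ
      simp only [Finset.mul_sum]
      rw [Finset.sum_comm]
      refine Finset.sum_congr rfl fun c _ => Finset.sum_congr rfl fun v _ => ?_
      refine Finset.sum_congr rfl fun w _ => ?_
      congr 3
      ring
    rw [a1]
    refine Finset.sum_congr rfl fun c hc => ?_
    rw [mem_range, Nat.lt_succ_iff] at hc
    rw [hsemi]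
    congr 1
    omega
  -- the tail
  have e5 : ∑ c ∈ range (i + 1), PJ (i - c) (Rm d B g m c) (u - c + th * m) =
      ∑ c ∈ range (i' + 1), PJ (i - c) (Rm d B g m c) (u - c + th * m) +
      ∑ c ∈ Ioc (4 * m) i, PJ (i - c) (Rm d B g m c) (u - c + th * m) := by
    have a1 : range (i + 1) = range (i' + 1) ∪ Ioc (4 * m) i := by
      ext c
      rw [mem_union, mem_range, mem_range, mem_Ioc]
      omega
    rw [a1, Finset.sum_union]
    rw [Finset.disjoint_left]
    intro c h1 h2
    rw [mem_range] at h1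
    rw [mem_Ioc] at h2
    omega
  have e6 : |∑ c ∈ Ioc (4 * m) i, PJ (i - c) (Rm d B g m c) (u - c + th * m)| ≤ 6 * K / u := by
    refine (Finset.abs_sum_le_sum_abs _ _).trans ?_
    calc ∑ c ∈ Ioc (4 * m) i, |PJ (i - c) (Rm d B g m c) (u - c + th * m)|
        ≤ ∑ c ∈ Ioc (4 * m) i, 6 * (((Fam m c).card : ℝ) / 2 ^ c) := by
          refine Finset.sum_le_sum fun c hc => ?_
          rw [mem_Ioc] at hc
          refine abs_PJ_le fun v _ => ?_
          refine hR1 d B g L m c _ hg ?_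
          -- the position
          have hci : c ≤ i := hc.2
          have hcr : ((i - c : ℕ) : ℝ) = i - c := by rw [Nat.cast_sub hci]
          set t : ℝ := u - c + th * m - (i - c : ℕ) + th * v with ht
          have ht1 : 9 / 10 * u ≤ t := by
            rw [ht, hcr, hir]
            have : 0 ≤ th * m := by positivity
            have : 0 ≤ th * v := by positivity
            linarith
          have h2m : 2 * m ≤ ⌊t⌋₊ := by
            refine Nat.le_floor ?_
            push_cast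
            linarith
          calc 3 ^ m ≤ 4 ^ m := Nat.pow_le_pow_left (by norm_num) m
            _ = 2 ^ (2 * m) := by rw [pow_mul]; norm_num
            _ ≤ 2 ^ ⌊t⌋₊ := Nat.pow_le_pow_right (by norm_num) h2m
      _ = 6 * ∑ c ∈ Ioc (4 * m) i, ((Fam m c).card : ℝ) / 2 ^ c := by rw [Finset.mul_sum]
      _ ≤ 6 * (3 / 5 : ℝ) ^ m := by
          have := hR2 m i
          linarith
      _ ≤ 6 * (K / u) := by
          have := hKb u m (by linarith) (by linarith)
          linarith
      _ = 6 * K / u := by ring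
  rw [e4] at e3
  rw [e5] at e1
  have e7 : (C + 2 * C + 6 * K) / u = C / u + 2 * C / u + 6 * K / u := by ring
  rw [abs_le] at e1 e3 e6 ⊢
  constructor <;> linarith [e1.1, e1.2, e3.1, e3.2, e6.1, e6.2]

end Pool.Agent.Lib.MP_edb5be_nt.ND.H26
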