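import Pool.Agent.Lib.MP_edb5be_nt.ND.Iface3
import Pool.Agent.Lib.MP_edb5be_nt.ND.H26.TF

/-!
ND: modules S1P, TFP, TGP (arbitrary powers of the logarithm).
-/

set_option autoImplicit false

namespace Pool.Agent.Lib.MP_edb5be_nt.ND.H26

open Finset Pool.Agent.Lib.MP_0a5adf_nt.TP

theorem s1p (hA : S1APStatement) (hB : S1BPStatement) : S1PStatement := by
  intro A
  obtain ⟨C₁, z₁, hC₁, h1⟩ := hA A
  obtain ⟨C₂, z₂, hC₂, h2⟩ := hB A
  refine ⟨C₁ + C₂, max z₁ (max z₂ 1), by positivity, ?_⟩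
  intro d B lo g L z i m hz hlo hinv hL0 hL hg hi hm hzm
  have hz1 : z₁ ≤ z := le_trans (le_max_left _ _) hz
  have hz2 : z₂ ≤ z := le_trans (le_trans (le_max_left _ _) (le_max_right _ _)) hz
  have hz3 : 1 ≤ z := le_trans (le_trans (le_max_right _ _) (le_max_right _ _)) hz
  have hi75 : z / 75 ≤ i := by
    have : (4 : ℝ) * m ≤ i := by exact_mod_cast hm
    linarith
  have e1 := h1 d B lo g L z i (dev ⌊z⌋₊) ⌊z - mu * i⌋₊ hz1 hlo hinv hL0 hL hg hi75 hi rfl rfl
  have e2 := h2 d B g L z i m (dev ⌊z⌋₊) ⌊z - mu * i⌋₊ hz2 hg hi hm hzm rfl rfl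
  calc _ ≤ C₁ / z ^ A + C₂ / z ^ A := (abs_sub_le _ _ _).trans (add_le_add e1 e2)
    _ = (C₁ + C₂) / z ^ A := by ring

/-- `u ^ A * (3/5)^(u/250)` is bounded -/
theorem exists_pow_boundA (A : ℕ) : ∃ C : ℝ, 0 < C ∧ ∀ (u : ℝ) (m : ℕ), 1 ≤ u → u ≤ 250 * m →
    (3 / 5 : ℝ) ^ m ≤ C / u ^ A := by
  have h : Filter.Tendsto (fun m : ℕ => (m : ℝ) ^ A * (3 / 5 : ℝ) ^ m) Filter.atTop (nhds 0) :=
    tendsto_pow_const_mul_const_pow_of_lt_one A (by norm_num) (by norm_num)
  obtain ⟨K, hK⟩ := h.bddAbove_range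
  refine ⟨250 ^ A * (|K| + 1), by positivity, ?_⟩
  intro u m hu hum
  have h1 : (m : ℝ) ^ A * (3 / 5 : ℝ) ^ m ≤ |K| + 1 := by
    have := hK ⟨m, rfl⟩
    simp only at this
    linarith [le_abs_self K]
  rw [le_div_iff₀ (by positivity)]
  have hp : (0 : ℝ) < (3 / 5 : ℝ) ^ m := by positivity
  have h2 : u ^ A ≤ 250 ^ A * (m : ℝ) ^ A := by
    rw [← mul_pow]
    exact pow_le_pow_left₀ (by linarith) hum A
  calc (3 / 5 : ℝ) ^ m * u ^ A ≤ (3 / 5 : ℝ) ^ m * (250 ^ A * (m : ℝ) ^ A) :=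
        mul_le_mul_of_nonneg_left h2 hp.le
    _ = 250 ^ A * ((m : ℝ) ^ A * (3 / 5 : ℝ) ^ m) := by ring
    _ ≤ 250 ^ A * (|K| + 1) := mul_le_mul_of_nonneg_left h1 (by positivity)

/-- `u ^ A ≤ K * 2 ^ z` for `z ≥ u / 2` -/
theorem exists_two_pow_bound (A : ℕ) : ∃ K : ℝ, 0 < K ∧ ∀ u z : ℝ, 0 < u → u / 2 ≤ z →
    1 / (2 : ℝ) ^ z ≤ K / u ^ A := by
  refine ⟨(A.factorial : ℝ) * 4 ^ A, by positivity, fun u z hu hz => ?_⟩
  rw [div_le_div_iff₀ (by positivity) (by positivity), one_mul]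
  have hl : (1 : ℝ) / 2 ≤ Real.log 2 := by
    have := Real.log_two_gt_d9
    linarith
  have h1 : (u / 4) ^ A / (A.factorial : ℝ) ≤ Real.exp (u / 4) :=
    Real.pow_div_factorial_le_exp (u / 4) (by positivity) A
  have h2 : Real.exp (u / 4) ≤ 2 ^ z := by
    rw [Real.rpow_def_of_pos (by norm_num)]
    apply Real.exp_le_exp.2
    nlinarith
  have h3 : (u / 4) ^ A ≤ (A.factorial : ℝ) * 2 ^ z := by
    rw [div_le_iff₀ (by positivity)] at h1
    nlinarith [show (0 : ℝ) < A.factorial by positivity]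
  calc u ^ A = 4 ^ A * (u / 4) ^ A := by rw [← mul_pow]; congr 1; ring
    _ ≤ 4 ^ A * ((A.factorial : ℝ) * 2 ^ z) := mul_le_mul_of_nonneg_left h3 (by positivity)
    _ = (A.factorial : ℝ) * 4 ^ A * 2 ^ z := by ring

theorem tfp (h1 : S1PStatement) (hsemi : SemiStatement) (hR : RBoundStatement) :
    TFPStatement := by
  intro A
  obtain ⟨C, z₀, hC, h1⟩ := h1 A
  obtain ⟨hR1, hR2⟩ := hR
  obtain ⟨K, hK, hKb⟩ := exists_pow_boundA A
  refine ⟨C + 2 ^ A * C + 6 * K, max (2 * |z₀|) (max 4000 (2 ^ (A + 3))), by positivity, ?_⟩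
  intro d B lo g L u J hu hlo hinv hL0 hL hg hJ
  have hu0 : 2 * |z₀| ≤ u := le_trans (le_max_left _ _) hu
  have hu4 : 4000 ≤ u := le_trans (le_trans (le_max_left _ _) (le_max_right _ _)) hu
  have huA : 2 ^ (A + 3) ≤ u := le_trans (le_trans (le_max_right _ _) (le_max_right _ _)) hu
  have hz0 : z₀ ≤ |z₀| := le_abs_self z₀
  have hz0' : 0 ≤ |z₀| := abs_nonneg z₀
  have hupos : 0 < u := by linarith
  have th0 := th_pos
  have th2 := th_lt
  set m : ℕ := ⌈u / 250⌉₊ with hm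
  have hm1 : u / 250 ≤ m := Nat.le_ceil _
  have hm2 : (m : ℝ) < u / 250 + 1 := Nat.ceil_lt_add_one (by positivity)
  set i' : ℕ := 4 * m with hi'
  have hi'r : (i' : ℝ) = 4 * m := by rw [hi']; push_cast; ring
  set i : ℕ := i' + J with hi
  have hir : (i : ℝ) = 4 * m + J := by rw [hi]; push_cast; rw [hi'r]
  -- the formula at `(u, i)`
  have e1 := h1 d B lo g L u i m (by linarith) (by linarith) hinv hL0
    (hL.trans (pow_le_pow_right₀ (by linarith) (by omega))) hg (by rw [hir]; linarith) (by omega)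
    (by linarith)
  -- the formula at `(z_v, i')`
  have e2 : ∀ v ∈ range (J + 1), |Fm B g (u - J + th * v) -
      (fun z => ∑ c ∈ range (i' + 1), PJ (i' - c) (Rm d B g m c) (z - c + th * m))
        (u - J + th * v)| ≤ 2 ^ A * C / u ^ A := by
    intro v hv
    rw [mem_range, Nat.lt_succ_iff] at hv
    have hv' : (v : ℝ) ≤ J := by exact_mod_cast hv
    have hv0 : (0 : ℝ) ≤ v := Nat.cast_nonneg v
    have hJ0 : (0 : ℝ) ≤ J := Nat.cast_nonneg J
    have hthv0 : 0 ≤ th * v := by positivity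
    have hthv : th * v ≤ 8 / 5 * J := by nlinarith
    set z : ℝ := u - J + th * v with hz
    have hz1 : 19 / 20 * u ≤ z := by linarith
    have hz2 : z ≤ 103 / 100 * u := by linarith
    have hzpos : 0 < z := by linarith
    have hL' : L ≤ z ^ (A + 3) := by
      have a2 : (u / 2) ^ (A + 3) ≤ z ^ (A + 3) :=
        pow_le_pow_left₀ (by positivity) (by linarith) _
      have a3 : u ^ (A + 2) ≤ (u / 2) ^ (A + 3) := by
        rw [div_pow, le_div_iff₀ (by positivity)]
        calc u ^ (A + 2) * 2 ^ (A + 3) ≤ u ^ (A + 2) * u :=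
              mul_le_mul_of_nonneg_left huA (by positivity)
          _ = u ^ (A + 3) := by ring
      linarith
    have e := h1 d B lo g L z i' m (by linarith) (by linarith) hinv hL0 hL' hg
      (by rw [hi'r]; linarith) le_rfl (by linarith)
    refine e.trans ?_
    rw [div_le_div_iff₀ (by positivity) (by positivity)]
    have a4 : u ^ A ≤ 2 ^ A * z ^ A := by
      rw [← mul_pow]
      exact pow_le_pow_left₀ hupos.le (by linarith) A
    calc C * u ^ A ≤ C * (2 ^ A * z ^ A) := mul_le_mul_of_nonneg_left a4 hC.le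
      _ = 2 ^ A * C * z ^ A := by ring
  have e3 := abs_PJ_sub_le (F := Fm B g) (G := fun z => ∑ c ∈ range (i' + 1),
    PJ (i' - c) (Rm d B g m c) (z - c + th * m)) e2
  -- the main terms
  have e4 : PJ J (fun z => ∑ c ∈ range (i' + 1), PJ (i' - c) (Rm d B g m c) (z - c + th * m)) u =
      ∑ c ∈ range (i' + 1), PJ (i - c) (Rm d B g m c) (u - c + th * m) := by
    have a1 : PJ J (fun z => ∑ c ∈ range (i' + 1),
        PJ (i' - c) (Rm d B g m c) (z - c + th * m)) u =
        ∑ c ∈ range (i' + 1), PJ J (PJ (i' - c) (Rm d B g m c)) (u - c + th * m) := by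
      unfold PJ
      simp only [Finset.mul_sum]
      rw [Finset.sum_comm]
      refine Finset.sum_congr rfl fun c _ => Finset.sum_congr rfl fun v _ => ?_
      refine Finset.sum_congr rfl fun w _ => ?_
      congr 3
      ring
    rw [a1]
    refine Finset.sum_congr rfl fun c hc => ?_
    rw [mem_range, Nat.lt_succ_iff] at hc
    rw [hsemi]
    congr 1
    omega
  -- the tail
  have e5 : ∑ c ∈ range (i + 1), PJ (i - c) (Rm d B g m c) (u - c + th * m) =
      ∑ c ∈ range (i' + 1), PJ (i - c) (Rm d B g m c) (u - c + th * m) +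
      ∑ c ∈ Ioc (4 * m) i, PJ (i - c) (Rm d B g m c) (u - c + th * m) := by
    have a1 : range (i + 1) = range (i' + 1) ∪ Ioc (4 * m) i := by
      ext c
      rw [mem_union, mem_range, mem_range, mem_Ioc]
      omega
    rw [a1, Finset.sum_union]
    rw [Finset.disjoint_left]
    intro c h1 h2
    rw [mem_range] at h1
    rw [mem_Ioc] at h2
    omega
  have e6 : |∑ c ∈ Ioc (4 * m) i, PJ (i - c) (Rm d B g m c) (u - c + th * m)| ≤
      6 * K / u ^ A := by
    refine (Finset.abs_sum_le_sum_abs _ _).trans ?_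
    calc ∑ c ∈ Ioc (4 * m) i, |PJ (i - c) (Rm d B g m c) (u - c + th * m)|
        ≤ ∑ c ∈ Ioc (4 * m) i, 6 * (((Fam m c).card : ℝ) / 2 ^ c) := by
          refine Finset.sum_le_sum fun c hc => ?_
          rw [mem_Ioc] at hc
          refine abs_PJ_le fun v _ => ?_
          refine hR1 d B g L m c _ hg ?_
          -- the position
          have hci : c ≤ i := hc.2
          have hcr : ((i - c : ℕ) : ℝ) = i - c := by rw [Nat.cast_sub hci]
          set t : ℝ := u - c + th * m - (i - c : ℕ) + th * v with ht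
          have ht1 : 9 / 10 * u ≤ t := by
            rw [ht, hcr, hir]
            have : 0 ≤ th * m := by positivity
            have : 0 ≤ th * v := by positivity
            linarith
          have h2m : 2 * m ≤ ⌊t⌋₊ := by
            refine Nat.le_floor ?_
            push_cast
            linarith
          calc 3 ^ m ≤ 4 ^ m := Nat.pow_le_pow_left (by norm_num) m
            _ = 2 ^ (2 * m) := by rw [pow_mul]; norm_num
            _ ≤ 2 ^ ⌊t⌋₊ := Nat.pow_le_pow_right (by norm_num) h2m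
      _ = 6 * ∑ c ∈ Ioc (4 * m) i, ((Fam m c).card : ℝ) / 2 ^ c := by rw [Finset.mul_sum]
      _ ≤ 6 * (3 / 5 : ℝ) ^ m := by
          have := hR2 m i
          linarith
      _ ≤ 6 * (K / u ^ A) := by
          have := hKb u m (by linarith) (by linarith)
          linarith
      _ = 6 * K / u ^ A := by ring
  rw [e4] at e3
  rw [e5] at e1
  have e7 : (C + 2 ^ A * C + 6 * K) / u ^ A =
      C / u ^ A + 2 ^ A * C / u ^ A + 6 * K / u ^ A := by ring
  rw [abs_le] at e1 e3 e6 ⊢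
  constructor <;> linarith [e1.1, e1.2, e3.1, e3.2, e6.1, e6.2]

theorem tgp (hT : TFPStatement) (hS : SmoothStatement) : TGPStatement := by
  intro A
  obtain ⟨C, u₀, hC, hT⟩ := hT A
  obtain ⟨K, hK, hKb⟩ := exists_two_pow_bound A
  refine ⟨C + 2 * (3 + 2 * K), max u₀ 4, by positivity, ?_⟩
  intro d B lo u J hu hlo hinv hJ
  have hu0 : u₀ ≤ u := le_trans (le_max_left _ _) hu
  have hu4 : 4 ≤ u := le_trans (le_max_right _ _) hu
  have hupos : 0 < u := by linarith
  have hpow : u ≤ u ^ (A + 1) := by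
    calc u = u ^ 1 := (pow_one u).symm
      _ ≤ u ^ (A + 1) := pow_le_pow_right₀ (by linarith) (by omega)
  obtain ⟨g, hg, hGF⟩ := hS (1 / u ^ (A + 1)) (by positivity) (by
    rw [div_le_div_iff₀ (by positivity) (by norm_num)]; linarith)
  have hL : 3 / (1 / u ^ (A + 1)) = 3 * u ^ (A + 1) := by field_simp
  rw [hL] at hg
  have h1 := hT d B lo g (3 * u ^ (A + 1)) u J hu0 hlo hinv (by positivity) (by
    calc 3 * u ^ (A + 1) ≤ u * u ^ (A + 1) :=
          mul_le_mul_of_nonneg_right (by linarith) (by positivity)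
      _ = u ^ (A + 2) := by ring) hg hJ
  -- the error of the smoothing at `z ≥ .95 u`
  have hsm : ∀ z : ℝ, 19 / 20 * u ≤ z → |Gd B z - Fm B g z| ≤ (3 + 2 * K) / u ^ A := by
    intro z hz
    have hz0 : 0 ≤ z := by linarith
    refine (hGF B z hz0).trans ?_
    have h2 : 1 / (2 : ℝ) ^ z ≤ K / u ^ A := hKb u z hupos (by linarith)
    have h6 : 1 / u ^ (A + 1) ≤ 1 / u ^ A :=
      one_div_le_one_div_of_le (by positivity) (pow_le_pow_right₀ (by linarith) (by omega))
    have h7 : (3 + 2 * K) / u ^ A = 3 * (1 / u ^ A) + 2 * (K / u ^ A) := by ring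
    have h8 : (2 : ℝ) / 2 ^ z = 2 * (1 / 2 ^ z) := by ring
    rw [h7, h8]
    linarith
  have h2 : |PJ J (Gd B) u - PJ J (Fm B g) u| ≤ (3 + 2 * K) / u ^ A := by
    refine abs_PJ_sub_le fun v _ => hsm _ ?_
    have : 0 ≤ th * v := mul_nonneg th_pos.le (Nat.cast_nonneg v)
    linarith
  have h3 := hsm u (by linarith)
  have e : (C + 2 * (3 + 2 * K)) / u ^ A =
      (3 + 2 * K) / u ^ A + C / u ^ A + (3 + 2 * K) / u ^ A := by ring
  rw [abs_le] at h1 h2 h3 ⊢
  constructor <;> linarith [h1.1, h1.2, h2.1, h2.2, h3.1, h3.2]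

end Pool.Agent.Lib.MP_edb5be_nt.ND.H26
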