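import Pool.Agent.Lib.MP_edb5be_nt.ND.Iface

/-!
ND: module S1 (combination of S1A and S1B).
-/

set_option autoImplicit false

namespace Pool.Agent.Lib.MP_edb5be_nt.ND.H26

open Finset Pool.Agent.Lib.MP_0a5adf_nt.TP

theorem s1 (hA : S1AStatement) (hB : S1BStatement) : S1Statement := by
  obtain ⟨C₁, z₁, hC₁, h1⟩ := hA
  obtain ⟨C₂, z₂, hC₂, h2⟩ := hB
  refine ⟨C₁ + C₂, max z₁ (max z₂ 1), by positivity, ?_⟩
  intro d B lo g L z i m hz hlo hinv hL0 hL hg hi hm hzm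
  have hz1 : z₁ ≤ z := le_trans (le_max_left _ _) hz
  have hz2 : z₂ ≤ z := le_trans (le_trans (le_max_left _ _) (le_max_right _ _)) hz
  have hz3 : 1 ≤ z := le_trans (le_trans (le_max_right _ _) (le_max_right _ _)) hz
  have hi75 : z / 75 ≤ i := by
    have : (4 : ℝ) * m ≤ i := by exact_mod_cast hm
    linarith
  have e1 := h1 d B lo g L z i (dev ⌊z⌋₊) ⌊z - mu * i⌋₊ hz1 hlo hinv hL0 hL hg hi75 hi rfl rfl
  have e2 := h2 d B g L z i m (dev ⌊z⌋₊) ⌊z - mu * i⌋₊ hz2 hg hi hm hzm rfl rfl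
  calc _ ≤ C₁ / z + C₂ / z := (abs_sub_le _ _ _).trans (add_le_add e1 e2)
    _ = (C₁ + C₂) / z := by ring

end Pool.Agent.Lib.MP_edb5be_nt.ND.H26
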