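import Pool.Agent.Lib.MP_edb5be_nt.ND.Iface

/-!
ND: module TG (from the smoothed masses to the block densities).
-/

set_option autoImplicit false

namespace Pool.Agent.Lib.MP_edb5be_nt.ND.H26

open Finset Pool.Agent.Lib.MP_0a5adf_nt.TP

theorem bw_nonneg (j v : ℕ) : 0 ≤ bw j v := by unfold bw; positivity

theorem sum_bw (j : ℕ) : ∑ v ∈ range (j + 1), bw j v = 1 := by
  unfold bw
  rw [← Finset.sum_div]
  have h : ∑ v ∈ range (j + 1), ((j.choose v : ℕ) : ℝ) = 2 ^ j := by
    exact_mod_cast Nat.sum_range_choose j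
  rw [h]
  field_simp

/-- A pointwise bound for the difference of two functions passes to `PJ`. -/
theorem abs_PJ_sub_le {J : ℕ} {F G : ℝ → ℝ} {u e : ℝ}
    (h : ∀ v ∈ range (J + 1), |F (u - J + th * v) - G (u - J + th * v)| ≤ e) :
    |PJ J F u - PJ J G u| ≤ e := by
  unfold PJ
  rw [← Finset.sum_sub_distrib]
  refine (Finset.abs_sum_le_sum_abs _ _).trans ?_
  calc ∑ v ∈ range (J + 1), |bw J v * F (u - J + th * v) - bw J v * G (u - J + th * v)|
      ≤ ∑ v ∈ range (J + 1), bw J v * e := by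
        refine Finset.sum_le_sum fun v hv => ?_
        rw [← mul_sub, abs_mul, abs_of_nonneg (bw_nonneg J v)]
        exact mul_le_mul_of_nonneg_left (h v hv) (bw_nonneg J v)
    _ = e := by rw [← Finset.sum_mul, sum_bw, one_mul]

theorem th_pos : 0 < th := Real.logb_pos (by norm_num) (by norm_num)

theorem tg (hT : TFStatement) (hS : SmoothStatement) : TGStatement := by
  obtain ⟨C, u₀, hC, hT⟩ := hT
  refine ⟨C + 20, max u₀ 4, by positivity, ?_⟩
  intro d B lo u J hu hlo hinv hJ
  have hu0 : u₀ ≤ u := le_trans (le_max_left _ _) hu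
  have hu4 : 4 ≤ u := le_trans (le_max_right _ _) hu
  have hupos : 0 < u := by linarith
  obtain ⟨g, hg, hGF⟩ := hS (1 / u) (by positivity) (by
    rw [div_le_div_iff₀ hupos (by norm_num)]; linarith)
  have hL : 3 / (1 / u) = 3 * u := by field_simp
  rw [hL] at hg
  have h1 := hT d B lo g (3 * u) u J hu0 hlo hinv (by positivity) (by nlinarith) hg hJ
  -- the error of the smoothing at `z ≥ .95 u`
  have hsm : ∀ z : ℝ, 19 / 20 * u ≤ z → |Gd B z - Fm B g z| ≤ 9 / u := by
    intro z hz
    have hz0 : 0 ≤ z := by linarith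
    refine (hGF B z hz0).trans ?_
    have h2 : (2 : ℝ) / 2 ^ z ≤ 6 / u := by
      have h3 : z * Real.log 2 + 1 ≤ (2 : ℝ) ^ z := by
        rw [Real.rpow_def_of_pos (by norm_num), mul_comm z]
        exact Real.add_one_le_exp _
      have h4 := Real.log_two_gt_d9
      have h5 : u / 3 ≤ (2 : ℝ) ^ z := by nlinarith
      rw [div_le_div_iff₀ (by positivity) hupos]
      linarith
    have h6 : 3 * (1 / u) = 3 / u := by ring
    rw [h6]
    have h7 : (9 : ℝ) / u = 3 / u + 6 / u := by ring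
    linarith
  have h2 : |PJ J (Gd B) u - PJ J (Fm B g) u| ≤ 9 / u := by
    refine abs_PJ_sub_le fun v _ => hsm _ ?_
    have : 0 ≤ th * v := mul_nonneg th_pos.le (Nat.cast_nonneg v)
    linarith
  have h3 := hsm u (by linarith)
  have e : (C + 20) / u = 9 / u + C / u + 9 / u + 2 / u := by ring
  have h8 : 0 ≤ 2 / u := by positivity
  rw [abs_le] at h1 h2 h3 ⊢
  constructor <;> linarith [h1.1, h1.2, h2.1, h2.2, h3.1, h3.2]

end Pool.Agent.Lib.MP_edb5be_nt.ND.H26
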