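import Pool.Agent.Lib.MP_0a5adf_nt.TP.All
import Pool.Agent.Lib.MP_edb5be_nt.ND.H26.S1
import Pool.Agent.Lib.MP_edb5be_nt.ND.H26.TF
import Pool.Agent.Lib.MP_edb5be_nt.ND.H26.TG
import Pool.Agent.Lib.MP_edb5be_nt.ND.H26.Final
import Pool.Agent.Lib.MP_edb5be_nt.ND.H26.PowA
import Pool.Agent.Lib.MP_edb5be_nt.ND.H38.Sigma
import Pool.Agent.Lib.MP_edb5be_nt.ND.H38.ZDen
import Pool.Agent.Lib.MP_edb5be_nt.ND.H50.Bin
import Pool.Agent.Lib.MP_edb5be_nt.ND.H50.Slow
import Pool.Agent.Lib.MP_edb5be_nt.ND.H57.S1A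
import Pool.Agent.Lib.MP_edb5be_nt.ND.H57.S1AP
import Pool.Agent.Lib.MP_edb5be_nt.ND.H6.Conv
import Pool.Agent.Lib.MP_edb5be_nt.ND.H6.Shifts
import Pool.Agent.Lib.MP_edb5be_nt.ND.H63.Lip
import Pool.Agent.Lib.MP_edb5be_nt.ND.H63.Semi
import Pool.Agent.Lib.MP_edb5be_nt.ND.H63.Double
import Pool.Agent.Lib.MP_edb5be_nt.ND.H74.Sandwich
import Pool.Agent.Lib.MP_edb5be_nt.ND.H75.Count
import Pool.Agent.Lib.MP_edb5be_nt.ND.H75.Comp
import Pool.Agent.Lib.MP_edb5be_nt.ND.H75.ZeroZ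
import Pool.Agent.Lib.MP_edb5be_nt.ND.H75.RBound
import Pool.Agent.Lib.MP_edb5be_nt.ND.H82.S1B
import Pool.Agent.Lib.MP_edb5be_nt.ND.H82.S1BP
import Pool.Agent.Lib.MP_edb5be_nt.ND.H84.Kron
import Pool.Agent.Lib.MP_edb5be_nt.ND.Smooth

/-!
Project ND: assembly of the first part.
-/

set_option autoImplicit false

namespace Pool.Agent.Lib.MP_edb5be_nt.ND

open Pool.Agent.Lib.MP_0a5adf_nt.TP

theorem s1bT : S1BStatement := H82.s1b mixT joscT psplitT phiT Pool.Agent.Lib.MP_0a5adf_nt.TP.H15.hoeff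

theorem s1aT : S1AStatement :=
  H57.s1a Pool.Agent.Lib.MP_0a5adf_nt.H30.dyn pathT badnT phiT

theorem rboundT : RBoundStatement := H75.rbound phiT massT

theorem s1T : S1Statement := H26.s1 s1aT s1bT

theorem tfT : TFStatement := H26.tf s1T H63.semi rboundT

theorem tgT : TGStatement := H26.tg tfT smooth

theorem slowT : SlowStatement := H50.slow tgT H50.bin H63.lip

theorem shiftsT : ShiftsStatement := H6.shifts slowT H84.kron H63.lip

theorem convT : ConvStatement := H6.conv tgT shiftsT H50.bin H63.lip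

theorem countT : CountStatement := H75.count convT

theorem zdenT : ZDenStatement := H38.zden countT

theorem sigmaT : SigmaStatement := H38.sigma zdenT densityT

theorem s1apT : S1APStatement :=
  H57.s1ap Pool.Agent.Lib.MP_0a5adf_nt.H30.dyn pathT badnT phiT

theorem s1bpT : S1BPStatement :=
  H82.s1bp mixT joscT psplitT phiT Pool.Agent.Lib.MP_0a5adf_nt.TP.H15.hoeff

theorem tgpT : TGPStatement := H26.tgp (H26.tfp (H26.s1p s1apT s1bpT) H63.semi rboundT) smooth

theorem sandwichT : SandwichStatement := H74.sandwich tgpT H75.comp H63.double H63.lip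

theorem zerozT : ZeroZStatement := H75.zeroZ sandwichT

theorem part1T : H26.Part1Statement := H26.part1 zdenT zerozT sigmaT zcycT

end Pool.Agent.Lib.MP_edb5be_nt.ND
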