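import Pool.Agent.Lib.MP_edb5be_nt.ND.H26.Main
import Pool.Agent.Lib.MP_edb5be_nt.ND.H16.Self
import Pool.Agent.Lib.MP_edb5be_nt.ND.H21.Ffa
import Pool.Agent.Lib.MP_edb5be_nt.ND.H21.Pv2
import Pool.Agent.Lib.MP_edb5be_nt.ND.H30.ZPop
import Pool.Agent.Lib.MP_edb5be_nt.ND.H65.Pop
import Pool.Agent.Lib.MP_edb5be_nt.ND.H72.TailP
import Pool.Agent.Lib.MP_edb5be_nt.ND.H72.PV1
import Pool.Agent.Lib.MP_edb5be_nt.ND.H74.PV1A
import Pool.Agent.Lib.MP_edb5be_nt.ND.H97.BinLoc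
import Pool.Agent.Lib.MP_edb5be_nt.ND.H97.Renew
import Pool.Agent.Lib.MP_edb5be_nt.ND.H97.Hit

/-!
Project ND: assembly of the second part.
-/

set_option autoImplicit false

namespace Pool.Agent.Lib.MP_edb5be_nt.ND

open Pool.Agent.Lib.MP_0a5adf_nt.TP

theorem ffaT : FFAStatement := H21.ffa massT phiT joscT

theorem selfT : SelfStatement := H16.self Pool.Agent.Lib.MP_0a5adf_nt.H30.dyn Pool.Agent.Lib.MP_0a5adf_nt.H37.catSt massT

theorem tailpT : TailPStatement := H72.tailp ffaT selfT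

theorem pv1aT : PV1AStatement := H74.pv1a Pool.Agent.Lib.MP_0a5adf_nt.H30.dyn

theorem pv2T : PV2Statement := H21.pv2 Pool.Agent.Lib.MP_0a5adf_nt.H30.dyn cntParT Pool.Agent.Lib.MP_0a5adf_nt.H51.visits

theorem renewT : RenewStatement := H97.renew H97.binloc

theorem pv1T : PV1Statement :=
  H72.pv1 pv1aT mixT joscT psplitT phiT Pool.Agent.Lib.MP_0a5adf_nt.TP.H15.hoeff renewT

theorem hitT : HitStatement := H97.hit pv1T pv2T

theorem popT : PopStatement := H65.pop hitT tailpT convT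

theorem zpopT : ZPopStatement := H30.zpop popT

end Pool.Agent.Lib.MP_edb5be_nt.ND
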